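import Mathlib
import Pool.Agent.TH128.GZ.Final

/-!
# The Grothendieck period conjecture for the product of any variety with products of almost all
elliptic curves

Let `Z` be **any** smooth projective variety over the field of algebraic numbers, with Betti numbers
`b_k`. We show: for all but finitely many isogeny classes of elliptic curves over the algebraic
numbers - at most `(∑ b_k ^ 2) / 3` without complex multiplication and at most `∑ b_k` with complex
multiplication are exceptional - the de Rham-Betti classes on `Z × E_1 ^ n_1 × ⋯ × E_r ^ n_r`, of all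
degrees, are the sums of products of de Rham-Betti classes on `Z` and of classes of divisors on the
powers of the elliptic curves `E_i` (the pullbacks of the diagonal of `E_i × E_i` and of the graph of
the complex multiplication). There is no condition on the number `r` and the exponents. In
particular, the Grothendieck period conjecture `GPC^k` holds for `Z × E_1 ^ n_1 × ⋯ × E_r ^ n_r` if
`GPC^j` holds for `Z` for all `j ≤ k`, and the same for `Z ^ n × E_1 ^ n_1 × ⋯ × E_r ^ n_r`.

The data are as follows.

* `Q` is the period matrix of `Z`, the matrix of the comparison isomorphism with respect to a basis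
  of `⨁ H^k_dR(Z)` over the algebraic numbers and a basis of `⨁ H^k(Z, ℚ)`, both indexed by `B`;
  `deg b` is the degree of a basis vector. So `∑ b_k` is the cardinality of `B`, and `∑ b_k ^ 2` is the
  number of the pairs with `deg a = deg b`. The proof works for an arbitrary invertible matrix `Q`
  with the block structure given by `deg`.
* `P i` is the period matrix of `E_i`, the matrix of the comparison isomorphism for `H^1`, with
  respect to a basis of `H^1_dR` over the algebraic numbers and a symplectic basis of
  `H^1(E_i, ℚ)`. By the relation of Legendre one can choose the bases such that the determinant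
  of `P i` is the same number `lam` for all `i`, namely `2πi`.
* `C i = 0` if `E_i` has no complex multiplication, otherwise `C i` is the matrix of an endomorphism of
  trace zero of `E_i` on `H^1(E_i, ℚ)`. Its matrix `P i * C i * (P i)⁻¹` on `H^1_dR` is algebraic.
  The field of complex multiplication is generated by the square root of `-det (C i)`. Elliptic
  curves with the same field are isogenous.
* The facts from transcendence theory which are used are the following consequences of the analytic
  subgroup theorem of Wüstholz: if `E_i` has no complex multiplication, its four periods are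
  linearly independent over the algebraic numbers; if moreover `E_j` has no complex multiplication and
  is not isogenous to `E_i`, then so are the eight periods of `E_i` and `E_j`; and if `E_i` has
  complex multiplication, some quotient of two of its periods is transcendental (this was known
  before Wüstholz). These are the last three fields of `IsEllipticFamily`. No transcendence result is
  needed for the periods of `Z`, and no independence between periods of `Z` and of the `E_i`.

By the Künneth formula, the cohomology of `Z ^ κ₀ × ∏ E_i ^ n_i` is the direct sum of Tate twists of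
the tensor products of the total cohomologies of the copies `k ∈ κ₀` of `Z` and of `H^1(E_(τ k))`,
`k ∈ κ₁`, for functions `τ` on finite sets `κ₁`. A de Rham-Betti class `T` in this tensor product
with the twist given by the complex number `μ` (a power of `2πi`) is a tensor with rational
coordinates, which is `μ` times the image under the comparison isomorphism of a tensor with
algebraic coordinates (`IsDRB`). The theorem holds for all complex numbers `μ`.

The idea of the proof. Let `L` be the Lie algebra of all the pairs of endomorphisms of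
`∏ H^1(E_i)` and of the graded vector space `H(Z)` (traceless, commuting with complex multiplications)
which map `T` to a multiple of `T`. It contains the logarithmic derivatives of the period matrices with
respect to all the derivations of the field of complex numbers, and it is defined over the rational
numbers with respect to the Betti structure, and over the algebraic numbers with respect to the de
Rham structure. The analytic subgroup theorem shows that a Lie subalgebra of `∏ sl_2` over the
curves without complex multiplication with this property is everything, if it projects nontrivially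
to each factor. If `L` does not contain `sl_2` for a curve `E_j`, then
there is a Lie algebra with these two rationality properties which contains the logarithmic
derivatives of the periods of `E_j` and `Z`, and in which the endomorphism of `H(Z)` determines the
endomorphism of `H^1(E_j)`. If this is so for the curves in a finite set `X₀`, one can intersect these
Lie algebras to get a Lie algebra which injects into the endomorphisms of `H(Z)` and projects onto
`sl_2 ^ X₀`, hence `3 |X₀| ≤ ∑ b_k ^ 2`. For a curve `E_j` with complex multiplication, `L` contains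
rational pairs `(c C_j, Y)`. If the class is not killed by `C_j`, it follows by Galois theory, as the
fields of complex multiplication are linearly disjoint, that `c √(-det C_j)` lies in the rational
vector space generated by the eigenvalues of `Y`, for all these pairs; taking a generic rational
element of the intersection of the Lie algebras one sees that this can happen for at most `∑ b_k`
fields. Finally one applies the first fundamental theorem of
invariant theory for products of groups `SL_2` and tori (helper204), and descends to the rational and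
algebraic numbers.
-/

set_option autoImplicit false

namespace Pool.Agent.Results.MP_bf54cf_ag.AlmostAllEllipticFactors

open Matrix

/-- Two-by-two matrices. -/
abbrev M₂ : Type := Matrix (Fin 2) (Fin 2) ℂ

/-- The matrix has algebraic entries. -/
def IsAlgebraicMatrix (c : M₂) : Prop := ∀ a b, IsAlgebraic ℚ (c a b)

/-- The properties of the period matrices `P i` of pairwise non-isogenous elliptic curves `E_i` over the
algebraic numbers, where `C i = 0` if `E_i` has no complex multiplication and otherwise is the
matrix of an endomorphism of trace zero on the first Betti cohomology of `E_i`. -/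
structure IsEllipticFamily {ι : Type*} (P C : ι → M₂) (lam : ℂ) : Prop where
  lam_ne : lam ≠ 0
  /-- The relation of Legendre. -/
  det : ∀ i, (P i).det = lam
  /-- The endomorphism is rational on Betti cohomology. -/
  rational : ∀ i a b, ∃ q : ℚ, C i a b = q
  /-- The endomorphism is defined over the algebraic numbers on de Rham cohomology. -/
  algebraic : ∀ i, IsAlgebraicMatrix (P i * C i * (P i)⁻¹)
  traceless : ∀ i, (C i).trace = 0
  /-- The endomorphism generates a quadratic field. -/
  field : ∀ i, C i ≠ 0 → ∀ q : ℚ, (q : ℂ) ^ 2 ≠ -(C i).det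
  /-- Non-isogenous curves have different fields of complex multiplication. -/
  fields : ∀ i j, C i ≠ 0 → C j ≠ 0 → i ≠ j → ∀ q : ℚ, (q : ℂ) ^ 2 ≠ (C i).det * (C j).det
  /-- Wüstholz: the periods of a curve without complex multiplication are linearly independent over
  the algebraic numbers. -/
  indep : ∀ i, C i = 0 → ∀ c : M₂, IsAlgebraicMatrix c → ∑ a, ∑ b, c a b * P i a b = 0 → c = 0
  /-- Wüstholz: and so are the periods of two such curves. -/
  indep₂ : ∀ i j, C i = 0 → C j = 0 → i ≠ j → ∀ c d : M₂, IsAlgebraicMatrix c →
    IsAlgebraicMatrix d → ∑ a, ∑ b, c a b * P i a b + ∑ a, ∑ b, d a b * P j a b = 0 →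
    c = 0 ∧ d = 0
  /-- A quotient of periods of a curve with complex multiplication is transcendental. -/
  transcendental : ∀ i, C i ≠ 0 → ∃ a b c d, P i c d ≠ 0 ∧ Transcendental ℚ (P i a b / P i c d)

/-- `IsDRB Q P τ μ T`: the tensor `T` in `H(Z)^{⊗ κ₀} ⊗ ⨂_k H^1(E_(τ k))`, given by its coordinates
on Betti cohomology, is a de Rham-Betti class with twist `μ`. -/
def IsDRB {ι B κ₀ κ₁ : Type*} [Fintype B] [Fintype κ₀] [Fintype κ₁] [DecidableEq κ₀]
    [DecidableEq κ₁] (Q : Matrix B B ℂ) (P : ι → M₂) (τ : κ₁ → ι) (μ : ℂ)
    (T : (κ₀ → B) → (κ₁ → Fin 2) → ℂ) : Prop :=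
  (∀ I J, ∃ q : ℚ, T I J = q) ∧ ∃ T' : (κ₀ → B) → (κ₁ → Fin 2) → ℂ,
    (∀ I J, IsAlgebraic ℚ (T' I J)) ∧
    ∀ I J, T I J = μ * ∑ I', ∑ J',
      ((∏ k, Q (I' k) (I k)) * ∏ k, P (τ k) (J' k) (J k)) * T' I' J'

/-- `IsDRBZ Q μ z`: the tensor `z` in `H(Z)^{⊗ κ₀}` is a de Rham-Betti class with twist `μ`. -/
def IsDRBZ {B κ₀ : Type*} [Fintype B] [Fintype κ₀] [DecidableEq κ₀] (Q : Matrix B B ℂ) (μ : ℂ)
    (z : (κ₀ → B) → ℂ) : Prop :=
  (∀ I, ∃ q : ℚ, z I = q) ∧ ∃ z' : (κ₀ → B) → ℂ, (∀ I, IsAlgebraic ℚ (z' I)) ∧
    ∀ I, z I = μ * ∑ I', (∏ k, Q (I' k) (I k)) * z' I'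

/-- The components in `H^1(E) ⊗ H^1(E)` of the classes of the diagonal of `E × E` (for `h = 0`) and of
the graph of the endomorphism `C` (for `h = 1`). -/
def divisor (C : M₂) (h : Fin 2) : M₂ := if h = 0 then !![0, 1; -1, 0] else !![0, 1; -1, 0] * C

/-- **Main theorem.** Let `Q` be the period matrix of a variety `Z`, with rows and columns in the
degrees `deg`, and let `P i` be the period matrices of pairwise non-isogenous elliptic curves. There
are finite sets `X₀` and `X₁` of exceptional curves, without and with complex multiplication, with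
`3 |X₀| ≤ ∑ b_k ^ 2` and `|X₁| ≤ ∑ b_k`, such that for all products of powers of the other curves,
all de Rham-Betti classes on the product with powers of `Z` are sums of products of de Rham-Betti
classes on the powers of `Z` and of products of divisor classes. -/
theorem result {ι B D : Type*} [Fintype B] [DecidableEq B] [DecidableEq D] {Q : Matrix B B ℂ}
    (hQ : Q.det ≠ 0) {deg : B → D} (hdeg : ∀ a b, deg a ≠ deg b → Q a b = 0) {P C : ι → M₂}
    {lam : ℂ} (hP : IsEllipticFamily P C lam) :
    ∃ X₀ X₁ : Finset ι, (∀ i ∈ X₀, C i = 0) ∧ (∀ i ∈ X₁, C i ≠ 0) ∧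
      3 * X₀.card ≤ Fintype.card {p : B × B // deg p.1 = deg p.2} ∧
      X₁.card ≤ Fintype.card B ∧
      ∀ (κ₀ κ₁ : Type) [Fintype κ₀] [Fintype κ₁] [DecidableEq κ₀] [DecidableEq κ₁] (τ : κ₁ → ι),
        (∀ k, τ k ∉ X₀ ∧ τ k ∉ X₁) → ∀ (μ : ℂ) (T : (κ₀ → B) → (κ₁ → Fin 2) → ℂ),
        IsDRB Q P τ μ T →
        ∃ (m N : ℕ) (z : Fin N → (κ₀ → B) → ℂ) (e : Fin N → (Fin m × Fin 2 ≃ κ₁))
          (h : Fin N → Fin m → Fin 2),
          (∀ n, IsDRBZ Q (μ * lam ^ m) (z n)) ∧
          (∀ n s, τ (e n (s, 0)) = τ (e n (s, 1))) ∧
          ∀ I J, T I J = ∑ n, z n I *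
            ∏ s, divisor (C (τ (e n (s, 0)))) (h n s) (J (e n (s, 0))) (J (e n (s, 1))) := by
  classical
  have hP0 : ∀ i, (P i).det ≠ 0 := fun i => by
    rw [hP.det]
    exact hP.lam_ne
  have hCQ : ∀ i a b, C i a b ∈ Pool.Agent.TH119.DR.QQ := fun i a b =>
    Pool.Agent.TH128.GZ.mem_QQ_iff.2 (hP.rational i a b)
  have hC : ∀ i, Pool.Agent.TH128.GZ.IsCM Pool.Agent.TH119.DR.QQ Pool.Agent.TH128.GZ.QB (P i)
      (C i) := fun i =>
    ⟨hCQ i, fun a b => Pool.Agent.TH128.GZ.mem_QB.2 (hP.algebraic i a b), hP.traceless i⟩
  choose ω hω using fun i => Pool.Agent.TH128.GZ.exists_omega (hCQ i)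
  have hω1 : ∀ i, C i ≠ 0 → ∀ q : ℚ, ω i ≠ algebraMap ℚ Pool.Agent.TH128.GZ.AA q := by
    intro i hi q hq
    apply hP.field i hi q
    rw [← hω i, hq]
    rfl
  have hω2 : ∀ i j, C i ≠ 0 → C j ≠ 0 → i ≠ j → ∀ q : ℚ,
      ω i * ω j ≠ algebraMap ℚ Pool.Agent.TH128.GZ.AA q := by
    intro i j hi hj hij q hq
    apply hP.fields i j hi hj hij q
    have h1 : (q : ℂ) = ω i * ω j := by
      have h2 := congrArg (fun x : Pool.Agent.TH128.GZ.AA => (x : ℂ)) hq
      exact h2.symm
    rw [h1, mul_pow, hω, hω]
    ring
  obtain ⟨X₀, hX₀, hc₀⟩ := Pool.Agent.TH128.GZ.exists_finset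
    (X := {i | C i = 0 ∧ Pool.Agent.TH128.GZ.Exc Pool.Agent.TH119.DR.QQ Pool.Agent.TH128.GZ.QB Q
      deg (P i)}) (N := Fintype.card {p : B × B // deg p.1 = deg p.2} / 3) (by
    intro T hT
    have h1 := Pool.Agent.TH128.GZ.exc_card (F := Pool.Agent.TH119.DR.QQ)
      (K := Pool.Agent.TH128.GZ.QB) (deg := deg) Pool.Agent.TH119.DR.QQ_alg
      (fun x hx => Pool.Agent.TH128.GZ.mem_QB.1 hx) hQ hP0 (fun i j => by rw [hP.det, hP.det]) T
      (fun i hi => hP.indep i (hT hi).1)
      (fun i hi j hj hij => hP.indep₂ i j (hT hi).1 (hT hj).1 hij) (fun i hi => (hT hi).2)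
    omega)
  obtain ⟨X₁, hX₁, hc₁⟩ := Pool.Agent.TH128.GZ.exists_finset
    (X := {i | C i ≠ 0 ∧ Pool.Agent.TH128.GZ.ExcC Pool.Agent.TH128.GZ.QB Q deg (P i) (C i) (ω i)})
    (N := Fintype.card B) (fun T hT =>
      Pool.Agent.TH128.GZ.excC_card (K := Pool.Agent.TH128.GZ.QB) (Q := Q) (deg := deg) (P := P)
      (C := C) (ω := ω) T (fun i _ => hC i) (fun i hi => (hT hi).1) (fun i _ => hω i)
      (fun i hi => hω1 i (hT hi).1) (fun i hi j hj hij => hω2 i j (hT hi).1 (hT hj).1 hij)
      (fun i hi => by
        by_contra hcon
        push Not at hcon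
        obtain ⟨a, b, c, d, h0, htr⟩ := hP.transcendental i (hT hi).1
        exact htr (Pool.Agent.TH128.GZ.ratio_alg (hP0 i) hcon a b c d h0))
      (fun i hi => (hT hi).2))
  have hm₀ : ∀ i, i ∈ X₀ ↔ C i = 0 ∧ Pool.Agent.TH128.GZ.Exc Pool.Agent.TH119.DR.QQ
      Pool.Agent.TH128.GZ.QB Q deg (P i) := fun i => by
    rw [← Finset.mem_coe, hX₀]
    rfl
  have hm₁ : ∀ i, i ∈ X₁ ↔ C i ≠ 0 ∧ Pool.Agent.TH128.GZ.ExcC Pool.Agent.TH128.GZ.QB Q deg (P i)
      (C i) (ω i) := fun i => by
    rw [← Finset.mem_coe, hX₁]
    rfl
  refine ⟨X₀, X₁, fun i hi => ((hm₀ i).1 hi).1, fun i hi => ((hm₁ i).1 hi).1, by omega, hc₁, ?_⟩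
  intro κ₀ κ₁ _ _ _ _ τ hτ μ T hT
  obtain ⟨hT1, T', hT', hT2⟩ := hT
  obtain ⟨m, N, z, z', e, h, hz, hz', hzz, he, hdec⟩ := Pool.Agent.TH128.GZ.dec_fin
    (J := {i // i ∈ Finset.univ.image τ}) (P := fun j => P j) (C := fun j => C j)
    (κ₀ := κ₀) (κ₁ := κ₁) hP.lam_ne (fun j => hP.det j) hQ hdeg (fun j => hC j)
    (fun k => ⟨τ k, Finset.mem_image_of_mem τ (Finset.mem_univ k)⟩) (T := T) (T' := T') (μ := μ)
    (fun I J => Pool.Agent.TH128.GZ.mem_QQ_iff.2 (hT1 I J))
    (fun I J => Pool.Agent.TH128.GZ.mem_QB.2 (hT' I J)) hT2
    (fun i hi => hP.indep i hi) (fun i j hi hj hij => hP.indep₂ i j hi hj (fun h =>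
      hij (Subtype.ext h))) (ω := fun j => ω j) (fun j _ => hω j) (fun j hj => hω1 j hj)
    (fun i j hi hj hij => hω2 i j hi hj (fun h => hij (Subtype.ext h)))
    (fun i hi hE => by
      obtain ⟨k, _, hk⟩ := Finset.mem_image.1 i.2
      refine (hτ k).1 ?_
      rw [hk]
      exact (hm₀ i).2 ⟨hi, hE⟩)
    (fun i hi hE => by
      obtain ⟨k, _, hk⟩ := Finset.mem_image.1 i.2
      refine (hτ k).2 ?_
      rw [hk]
      exact (hm₁ i).2 ⟨hi, hE⟩)
  refine ⟨m, N, z, e, h, fun n => ⟨fun I => Pool.Agent.TH128.GZ.mem_QQ_iff.1 (hz n I), z' n,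
    fun I => Pool.Agent.TH128.GZ.mem_QB.1 (hz' n I), fun I => ?_⟩, fun n s => ?_, fun I J => ?_⟩
  · rw [hzz n]
    rfl
  · exact congrArg Subtype.val (he n s)
  · exact hdec I J

end Pool.Agent.Results.MP_bf54cf_ag.AlmostAllEllipticFactors
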