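import Mathlib
import Pool.Agent.TH127.PG.IndepTypes

/-!
# The period conjecture for cycles on products of abelian varieties with complex multiplication by
# CM fields with many flips

Let `A i` be simple abelian varieties with complex multiplication by CM fields `E i`, of CM types
`Φ i`, defined over the field of all algebraic numbers, and let `X` be a product of copies of the
`A i`. The conjecture `GPC ^ m (X)` says that all de Rham-Betti classes, that is all classes
`f ∈ H^{2m}(X, ℚ)` such that `(2 π i) ^ m f` lies in `H^{2m}_dR(X / ℚ̄)`, are rational linear
combinations of classes of algebraic cycles. We prove it, for all `m` and all such products `X`, and
with combinations of intersections of divisors (`AllDRBDivisorial`), in the following cases. There is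
no condition on the types `Φ i` besides that the `A i` are simple, and no condition on the subfields
of the `E i`.

1. Two embeddings `x`, `y` of the fields `E i` into the complex numbers are *flipped* if some
   automorphism of `ℂ` fixes one of them and conjugates the other, or maps `x` to `y` and `y` to the
   complex conjugate of `x`. The *classes* are those of the equivalence relation generated by not
   being flipped. If the `A i` are simple and pairwise non-isogenous, if the elements of each class
   are translates of each other under the automorphisms of `ℂ`, and if each class has at most two
   pairs of conjugate embeddings, then `AllDRBDivisorial` holds.
2. Let `2 n` be the degree of the CM field `E`, let `E'` be its maximal real subfield, and let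
   `2 ^ v` be the degree of the Galois closure of `E` over the Galois closure of `E'`; this is the
   number of the sets `D` of embeddings of `E` such that some automorphism of the complex numbers
   conjugates the elements of `D` and fixes the other embeddings (`flipSets`). If `v > n / 3` for all
   `E i` (`ManyFlips 3`), if the `A i` are simple and if for all `i ≠ i'` some automorphism of `ℂ`
   fixes all embeddings of `E i` and conjugates all embeddings of `E i'` (the intersection of the
   Galois closures is a real field; `Independent`), then `AllDRBDivisorial` holds. In particular, if
   `E` is a CM field with `v > n / 3`, then the conjecture holds for all powers of all simple abelian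
   varieties with complex multiplication by `E`.

The periods enter as a `PeriodSystem` (helper537): a nonzero number `θ A φ` for every CM type
`A = (E, Φ)` and every embedding `φ` of `E`, such that the theorem of Bost (de Rham-Betti classes of
degree two on abelian varieties of CM type are Hodge classes; a consequence of the theorem of
Wüstholz) and the theorem of Deligne (Hodge classes on abelian varieties are de Rham-Betti classes)
hold. Both are theorems for the true periods.
-/

namespace Pool.Agent.Results.MP_bf54cf_ag.ClassesOfTwoPairs

open NumberField Module Pool.Agent.W547.KB Pool.Agent.W537.PC Pool.Agent.W527.Struct
  Pool.Agent.TH127.SC Pool.Agent.TH127.PG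

/-- **De Rham-Betti classes on products of abelian varieties of CM type are combinations of products
of divisor classes, if the classes of embeddings have at most two pairs, in particular if there are
many flips.** -/
theorem result (P : PeriodSystem) (hBost : P.Bost) (hDeligne : P.Deligne) :
    -- 1
    (∀ {ι : Type} [Fintype ι] (A : ι → CMPair), IsPrimitive A →
      (∀ x : Embs (fun i => (A i).E), AtMostTwoPairs x) → AllDRBDivisorial A P) ∧
    -- 2
    (∀ {ι : Type} [Fintype ι] (A : ι → CMPair), (∀ i, IsSimple (A i)) →
      Independent (fun i => (A i).E) → (∀ i, ManyFlips 3 (A i).E) → AllDRBDivisorial A P) :=
  ⟨fun _ hp hT => drb_of_twoPairs hBost hDeligne hp hT,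
    fun _ hs hind hf => drb_of_flips hBost hDeligne hs hind hf⟩

end Pool.Agent.Results.MP_bf54cf_ag.ClassesOfTwoPairs
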