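import Pool.Agent.TH119.DR.Fin

/-!
# De Rham-Betti classes on products of varieties whose periods satisfy no quadratic relation

Let `X_i` be finitely many smooth projective varieties over the field of algebraic numbers, and let
`V_i` be (a direct summand of) a cohomology group of `X_i` of odd degree, of dimension `2 g_i`, with
its polarization (for instance `H^1` of an abelian variety, or `H^3` of a Calabi-Yau threefold). Let
`P_i` be the period matrix with respect to symplectic bases of the algebraic de Rham cohomology and
of the rational homology, so that `P_i J P_iᵀ = lam_i J` (the relations of Riemann; `lam_i` is a
power of `2 π i` times an algebraic number).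

Assume that the periods satisfy no nontrivial relation
`∑ i, (lam i)⁻¹ * ∑ b i x y * c i z w * P i z x * P i w y = 0` with symmetric matrices `b i` of
rational numbers and `c i` of algebraic numbers (`NoQuadraticRelation`; the relations of Riemann
are not of this form). Then every de Rham-Betti class in every tensor product `V_{i 1} ⊗ ... ⊗
V_{i n}`, with an arbitrary Tate twist, of every degree `n`, is a rational linear combination of
products of the classes of the polarizations, so it is algebraic: no relation of degree two among
the periods means no exceptional de Rham-Betti class in any degree. For abelian varieties `X_i` this
is the conjecture `GPC^k` for all `k` and for all products of powers of the `X_i`.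

All definitions are in the file `Pool/Agent/TH119/DR/Defs.lean`.
-/

namespace Pool.Agent.Results.MP_bf54cf_ag.NoQuadraticRelations

open Pool.Agent.TH119.DR

/-- If the periods of the `V i` satisfy no nontrivial quadratic relation, then all de Rham-Betti
classes on all tensor products of the `V i` are in the span of the products of the classes of the
polarizations. -/
theorem result {ι : Type} [Fintype ι] [DecidableEq ι] {g : ι → ℕ} (hg : ∀ i, 0 < g i)
    (V : ∀ i, Periods (g i)) (hV : NoQuadraticRelation V) {κ : Type} [Fintype κ] [DecidableEq κ]
    (t : (κ → Bas g) → ℚ) (ht : IsDeRhamBetti V t) : t ∈ PolSpan g κ :=
  fam_main hg hV ht

end Pool.Agent.Results.MP_bf54cf_ag.NoQuadraticRelations
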