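import Pool.Agent.TH164.Spin.Kug
import Pool.Agent.TH164.Spin.Ev9

/-!
# The period conjecture for algebraic cycles on powers of K3 surfaces

Let `X` be a K3 surface over the field of algebraic numbers, of Picard number `ρ`. Let `T` be the
transcendental part of `H²(X)(1)`, of rank `n = 22 - ρ`. Suppose that the Hodge structure `T` has no
other endomorphisms than `ℚ`, and that `n ≥ 3`, `n ≠ 5`. Then

`H*(X)(*) = H⁰(X) ⊕ NS(X) ⊕ H⁴(X)(2) ⊕ T = ℚ^(ρ + 2) ⊕ T`, and
`⊕ₖ H²ᵏ(Xᵐ)(k) = (ℚ^(ρ + 2) ⊕ T)^(⊗ m)`.

With algebraic coefficients, `h¹` of the Kuga-Satake variety of `X` is a sum of copies of one simple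
object `S` if `n` is odd, and a sum of copies of `S = S⁺ ⊕ S⁻` for two simple objects if `n` is even
(the spin and half-spin representations). The cohomology `T` is contained in the endomorphisms of `S`.
Choose algebraic bases of the Betti and de Rham realizations of `S`, which correspond to each other
under an algebraic point of the motivic torsor, and let `P` be the period matrix of `S`.

* `IsKugaSatake`: a basis `e₁, …, eₙ` of the rational Betti cohomology `T` consists of matrices with
  algebraic entries which satisfy the Clifford relations for the intersection form `Q` and generate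
  the algebra of all matrices (Kuga-Satake, Deligne; `h¹` of the Kuga-Satake variety is the even
  Clifford algebra, and its Mumford-Tate group is `GSpin(T)` by Zarhin).
* `hDeligne`: the matrix `P` belongs to `GSpin(T)` (Deligne: Hodge classes on abelian varieties are
  absolute; André: they are motivated).
* `hWustholz`: the entries of `P` satisfy only those linear relations with algebraic coefficients
  which hold for the even Clifford algebra (Wüstholz: the linear relations between the periods of an
  abelian variety are given by its endomorphisms). For odd `n` the even Clifford algebra is the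
  algebra of all matrices: the entries of `P` are linearly independent. For even `n` it is the algebra
  of all block diagonal matrices for `S = S⁺ ⊕ S⁻`, and the simple objects `S⁺`, `S⁻` are not
  isomorphic.

By Poincaré duality a class in `⊕ₖ H²ᵏ(Xᵐ)(k)` is a multilinear form `c` on `m` copies of
`ℂ^(ρ + 2) ⊕ T`. It belongs to the Betti cohomology with rational coefficients if its values on
rational Betti classes are rational, and it belongs to the algebraic de Rham cohomology if its values
on de Rham classes are algebraic numbers. The comparison isomorphism is the identity on the first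
summand, and it sends an algebraic matrix `D` in the de Rham realization of `T` to `P D P⁻¹`.

The theorem: for `m < n = 22 - ρ`, `n ≠ 5`, every class on `Xᵐ` which is rational in Betti cohomology
and algebraic in de Rham cohomology is a linear combination with rational coefficients of products of
divisor classes, the classes of `X` and of a point, and of the Künneth components of the diagonals
of two factors. Hence `GPCᵏ(Xᵐ)` holds for all `k`.

The reason is algebraic: a Lie subalgebra of `so(n)`, `n ≠ 5`, whose associative envelope is the even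
Clifford algebra, is `so(n)`. (For `n = 5` there is the principal `sl(2)`.)
-/

set_option autoImplicit false
set_option linter.unusedSectionVars false

namespace Pool.Agent.Results.MP_bf54cf_ag.PowersOfK3Surfaces

open Matrix

section defs

variable {N : Type} [Fintype N] [DecidableEq N] {n ρ m : ℕ}

/-- The rational basis `e` of `T`, as matrices with algebraic entries which act on `S`. -/
structure IsKugaSatake (Q : Matrix (Fin n) (Fin n) ℚ) (e : Fin n → Matrix N N ℂ) : Prop where
  algebraic : ∀ i a b, IsAlgebraic ℚ (e i a b)
  clifford : ∀ i j, e i * e j + e j * e i = (2 * (Q i j : ℂ)) • (1 : Matrix N N ℂ)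
  nondegenerate : Q.det ≠ 0
  generate : Algebra.adjoin ℂ (Set.range e) = ⊤

/-- The complex cohomology `T`. -/
def T (e : Fin n → Matrix N N ℂ) : Submodule ℂ (Matrix N N ℂ) :=
  Submodule.span ℂ (Set.range e)

/-- The even Clifford algebra. -/
def evenClifford (e : Fin n → Matrix N N ℂ) : Subalgebra ℂ (Matrix N N ℂ) :=
  Algebra.adjoin ℂ {x | ∃ i j, x = e i * e j}

/-- The group `GSpin(T)`: the elements `g` of the even Clifford algebra with `g T g⁻¹ = T`. -/
def gSpin (e : Fin n → Matrix N N ℂ) : Set (GL N ℂ) :=
  {g | g.val ∈ evenClifford e ∧ (g⁻¹).val ∈ evenClifford e ∧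
    ∀ t : Matrix N N ℂ, g.val * t * (g⁻¹).val ∈ T e ↔ t ∈ T e}

/-- All linear relations with algebraic coefficients between the entries of `P` hold for the
even Clifford algebra. -/
def OnlyCliffordRelations (e : Fin n → Matrix N N ℂ) (P : Matrix N N ℂ) : Prop :=
  ∀ B : Matrix N N ℂ, (∀ i j, IsAlgebraic ℚ (B i j)) → ∑ i, ∑ j, B i j * P i j = 0 →
    ∀ x ∈ evenClifford e, ∑ i, ∑ j, B i j * x i j = 0

/-- The cohomology `ℂ^(ρ + 2) ⊕ T` of the surface with complex coefficients. -/
abbrev Coh (ρ : ℕ) (e : Fin n → Matrix N N ℂ) : Type := (Fin (ρ + 2) → ℂ) × T e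

/-- The rational Betti classes. -/
def IsBetti {e : Fin n → Matrix N N ℂ} (v : Coh ρ e) : Prop :=
  (∀ l, ∃ q : ℚ, v.1 l = q) ∧ (v.2 : Matrix N N ℂ) ∈ Submodule.span ℚ (Set.range e)

/-- The algebraic de Rham classes. -/
def IsDeRham {e : Fin n → Matrix N N ℂ} (P : GL N ℂ) (v : Coh ρ e) : Prop :=
  (∀ l, IsAlgebraic ℚ (v.1 l)) ∧ ∃ D : Matrix N N ℂ, (∀ i j, IsAlgebraic ℚ (D i j)) ∧
    (v.2 : Matrix N N ℂ) = P.val * D * (P⁻¹).val

/-- The classes on the power `Xᵐ`, with complex coefficients. -/
abbrev Class (m ρ : ℕ) (e : Fin n → Matrix N N ℂ) : Type :=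
  MultilinearMap ℂ (fun _ : Fin m => Coh ρ e) ℂ

/-- The classes which are rational in Betti cohomology and algebraic in de Rham cohomology. -/
def IsDeRhamBetti {e : Fin n → Matrix N N ℂ} (P : GL N ℂ) (c : Class m ρ e) : Prop :=
  (∀ v, (∀ j, IsBetti (v j)) → ∃ q : ℚ, c v = q) ∧
    ∀ v, (∀ j, IsDeRham P (v j)) → IsAlgebraic ℚ (c v)

/-- The intersection form on `T`: the matrix `t s + s t` is the scalar `2 q(t, s)`. -/
noncomputable def form {e : Fin n → Matrix N N ℂ} (t s : T e) : ℂ :=
  ((t : Matrix N N ℂ) * (s : Matrix N N ℂ)).trace / (Fintype.card N : ℂ)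

/-- The value of the class of a product cycle: `σ` is an involution of the factors. For a fixed factor
`j` of `σ` one takes the algebraic class with label `l j` on this factor, and for two factors `j < σ j`
the component in `T ⊗ T` of the class of their diagonal, given by the intersection form. -/
noncomputable def cycleClass {e : Fin n → Matrix N N ℂ} (σ : Fin m → Fin m)
    (l : Fin m → Fin (ρ + 2)) (v : Fin m → Coh ρ e) : ℂ :=
  ∏ j, if σ j = j then (v j).1 (l j) else if j < σ j then form (v j).2 (v (σ j)).2 else 1

end defs

/-- **Theorem.** Let `n ≥ 3`, `n ≠ 5`. Let `e₁, …, eₙ` be matrices with algebraic entries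
which satisfy the Clifford relations of a nondegenerate rational quadratic form and generate the
algebra of all matrices. Let `P` be in the group `GSpin` such that all linear relations with algebraic
coefficients between the entries of `P` hold for the even Clifford algebra. Then for `m < n` all
classes of degree `m` which are rational in Betti cohomology and algebraic in de Rham cohomology are
linear combinations with rational coefficients of products of algebraic classes and of the
intersection form. -/
theorem result {N : Type} [Fintype N] [DecidableEq N] [Nonempty N] {n ρ m : ℕ} (hn : 3 ≤ n)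
    (h5 : n ≠ 5) (hm : m < n) (Q : Matrix (Fin n) (Fin n) ℚ)
    (e : Fin n → Matrix N N ℂ) (he : IsKugaSatake Q e) (P : GL N ℂ) (hDeligne : P ∈ gSpin e)
    (hWustholz : OnlyCliffordRelations e P.val) (c : Class m ρ e) (hc : IsDeRhamBetti P c) :
    ∃ z : {σ : Fin m → Fin m // ∀ j, σ (σ j) = j} → (Fin m → Fin (ρ + 2)) → ℚ,
      ∀ v, c v = ∑ σ, ∑ l, (z σ l : ℂ) * cycleClass σ.1 l v := by
  obtain ⟨h1, h2, h3⟩ := hDeligne
  have hr : P.val * (P⁻¹).val = 1 := by rw [← Units.val_mul, mul_inv_cancel, Units.val_one]
  have hl : (P⁻¹).val * P.val = 1 := by rw [← Units.val_mul, inv_mul_cancel, Units.val_one]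
  refine Pool.Agent.TH164.Spin.main_kug he.nondegenerate he.algebraic he.clifford he.generate
    (fun Γ hΓ l ha hb hc => hΓ.spinAll hn h5 ha hb hc) hr hl h1 h2 (fun t ht => (h3 t).2 ht) ?_ ?_ hm
    (by omega) c ?_ ?_
  · intro t ht
    refine (h3 _).1 ?_
    have h4 : P.val * ((P⁻¹).val * t * P.val) * (P⁻¹).val = t := by
      calc P.val * ((P⁻¹).val * t * P.val) * (P⁻¹).val =
          (P.val * (P⁻¹).val) * t * (P.val * (P⁻¹).val) := by simp only [Matrix.mul_assoc]
        _ = t := by rw [hr, Matrix.one_mul, Matrix.mul_one]
    rw [h4]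
    exact ht
  · intro B hB h4 x hx
    rw [Fintype.sum_prod_type] at h4 ⊢
    exact hWustholz B hB h4 x hx
  · intro v hv
    refine hc.1 v fun j => ?_
    rcases hv j with ⟨l, hl'⟩ | ⟨h4, i, hi⟩
    · rw [hl']
      refine ⟨fun k => ?_, Submodule.zero_mem _⟩
      by_cases hk : k = l
      · exact ⟨1, by rw [hk]; simp⟩
      · exact ⟨0, by simp [Pi.single_eq_of_ne hk]⟩
    · refine ⟨fun k => ⟨0, by rw [h4]; simp⟩, ?_⟩
      rw [hi]
      exact Submodule.subset_span ⟨i, rfl⟩
  · intro v hv
    refine hc.2 v fun j => ?_
    rcases hv j with ⟨l, hl'⟩ | ⟨h4, D, hD, hi⟩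
    · rw [hl']
      refine ⟨fun k => ?_, 0, fun _ _ => isAlgebraic_zero, ?_⟩
      · by_cases hk : k = l
        · rw [hk]
          simp only [Pi.single_eq_same]
          exact isAlgebraic_one
        · simp only [Pi.single_eq_of_ne hk]
          exact isAlgebraic_zero
      · rw [Matrix.mul_zero, Matrix.zero_mul]
        rfl
    · refine ⟨fun k => ?_, D, hD, hi⟩
      rw [h4]
      exact isAlgebraic_zero

end Pool.Agent.Results.MP_bf54cf_ag.PowersOfK3Surfaces
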